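import Mathlib

-- merged part: Pool.Agent.Work.MP_ccf6ab_al.Basic
section
set_option autoImplicit false

namespace Pool.Agent.Work.MP_ccf6ab_al

open Module

section LinAlg
variable {k : Type} [Field k]

theorem quot_le {H H' : Type} [AddCommGroup H] [Module k H] [AddCommGroup H'] [Module k H']
    [Module.Finite k H'] (R : Submodule k H) (R' : Submodule k H') (L : H' →ₗ[k] H)
    (h1 : ∀ x ∈ R', L x ∈ R) (h2 : ∀ y, ∃ x, y - L x ∈ R) :
    finrank k (H ⧸ R) ≤ finrank k (H' ⧸ R') := by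
  apply LinearMap.finrank_le_finrank_of_surjective (f := R'.mapQ R L h1)
  intro y
  obtain ⟨y, rfl⟩ := R.mkQ_surjective y
  obtain ⟨x, hx⟩ := h2 y
  refine ⟨R'.mkQ x, ?_⟩
  simp only [Submodule.mkQ_apply, Submodule.mapQ_apply]
  exact ((Submodule.Quotient.eq R).2 hx).symm

theorem quot_lt {H H' : Type} [AddCommGroup H] [Module k H] [AddCommGroup H'] [Module k H']
    [Module.Finite k H'] (R : Submodule k H) (R' : Submodule k H') (L : H' →ₗ[k] H)
    (h1 : ∀ x ∈ R', L x ∈ R) (h2 : ∀ y, ∃ x, y - L x ∈ R) (e : H') (he : e ∉ R')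
    (he2 : L e ∈ R) :
    finrank k (H ⧸ R) < finrank k (H' ⧸ R') := by
  have h3 := quot_le R (R.comap L) L (fun x hx => hx) h2
  have hlt : R' < R.comap L := lt_of_le_of_ne h1 (fun h => he (h ▸ he2))
  have h4 := Submodule.finrank_lt_finrank_of_lt hlt
  have h5 := Submodule.finrank_quotient_add_finrank R'
  have h6 := Submodule.finrank_quotient_add_finrank (R.comap L)
  omega

theorem pencil {D H : Type} [AddCommGroup H] [Module k H] [AddCommGroup D] [Module k D]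
    [Module.Finite k H] [Module.Finite k D] (F0 F1 : D →ₗ[k] H) (W : Submodule k D)
    (h1 : LinearMap.ker F0 ≤ W) (h2 : ∀ x ∈ W, ∃ y ∈ W, F1 x = F0 y) :
    finrank k (H ⧸ LinearMap.range F0) ≤ finrank k (H ⧸ LinearMap.range F1) := by
  have a0 := LinearMap.finrank_range_add_finrank_ker F0
  have a1 := LinearMap.finrank_range_add_finrank_ker F1
  have b0 := LinearMap.finrank_range_add_finrank_ker (F0.domRestrict W)
  have b1 := LinearMap.finrank_range_add_finrank_ker (F1.domRestrict W)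
  have c0 := Submodule.finrank_quotient_add_finrank (LinearMap.range F0)
  have c1 := Submodule.finrank_quotient_add_finrank (LinearMap.range F1)
  have d : finrank k (LinearMap.range (F1.domRestrict W)) ≤
      finrank k (LinearMap.range (F0.domRestrict W)) := by
    apply Submodule.finrank_mono
    rintro _ ⟨x, rfl⟩
    obtain ⟨y, hy, e⟩ := h2 x x.2
    exact ⟨⟨y, hy⟩, e.symm⟩
  have e0 : finrank k (LinearMap.ker F0) ≤ finrank k (LinearMap.ker (F0.domRestrict W)) := by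
    apply LinearMap.finrank_le_finrank_of_injective
      (f := LinearMap.codRestrict (LinearMap.ker (F0.domRestrict W)) (Submodule.inclusion h1)
        (fun x => x.2))
    intro x y hxy
    exact Subtype.ext (congrArg (fun z => (z.1.1 : D)) hxy)
  have e1 : finrank k (LinearMap.ker (F1.domRestrict W)) ≤ finrank k (LinearMap.ker F1) := by
    apply LinearMap.finrank_le_finrank_of_injective
      (f := LinearMap.codRestrict (LinearMap.ker F1)
        (W.subtype ∘ₗ (LinearMap.ker (F1.domRestrict W)).subtype) (fun x => x.2))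
    intro x y hxy
    exact Subtype.ext (Subtype.ext (congrArg (fun z => (z.1 : D)) hxy))
  omega

end LinAlg

/-- finite-dimensional modules -/
structure FM (k : Type) [Field k] (A : Type) [Ring A] [Algebra k A] where
  X : Type
  [acg : AddCommGroup X]
  [modA : Module A X]
  [modk : Module k X]
  [tower : IsScalarTower k A X]
  [fin : Module.Finite k X]

attribute [instance] FM.acg FM.modA FM.modk FM.tower FM.fin

variable {k : Type} [Field k] {A : Type} [Ring A] [Algebra k A]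

instance : CoeSort (FM k A) Type := ⟨FM.X⟩

instance FM.finSub (X : FM k A) (N : Submodule A X) : Module.Finite k N :=
  Module.Finite.of_injective (N.subtype.restrictScalars k) Subtype.val_injective

abbrev FM.sub (X : FM k A) (N : Submodule A X) : FM k A := FM.mk N
abbrev FM.quo (X : FM k A) (N : Submodule A X) : FM k A := FM.mk (X ⧸ N)
abbrev FM.prod (X Y : FM k A) : FM k A := FM.mk (X × Y)

/-- two-term complexes of projectives -/
structure Cx (k : Type) [Field k] (A : Type) [Ring A] [Algebra k A] where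
  P1 : FM k A
  P0 : FM k A
  f : P1 →ₗ[A] P0
  [pr1 : Projective A P1]
  [pr0 : Projective A P0]

attribute [instance] Cx.pr1 Cx.pr0

def Phi (U V : Cx k A) :
    ((U.P0 →ₗ[A] V.P0) × (U.P1 →ₗ[A] V.P1)) →ₗ[k] (U.P1 →ₗ[A] V.P0) where
  toFun p := p.1 ∘ₗ U.f + V.f ∘ₗ p.2
  map_add' p q := by ext x; simp; abel
  map_smul' c p := by ext x; simp

noncomputable def E (U V : Cx k A) : ℕ :=
  finrank k ((U.P1 →ₗ[A] V.P0) ⧸ LinearMap.range (Phi U V))

def EZ (U V : Cx k A) : Prop :=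
  ∀ h : U.P1 →ₗ[A] V.P0, ∃ a : U.P0 →ₗ[A] V.P0, ∃ b : U.P1 →ₗ[A] V.P1, h = a ∘ₗ U.f + V.f ∘ₗ b

theorem mem_Phi {U V : Cx k A} (h : U.P1 →ₗ[A] V.P0) : h ∈ LinearMap.range (Phi U V) ↔
    ∃ a : U.P0 →ₗ[A] V.P0, ∃ b : U.P1 →ₗ[A] V.P1, h = a ∘ₗ U.f + V.f ∘ₗ b :=
  ⟨fun ⟨p, hp⟩ => ⟨p.1, p.2, hp.symm⟩, fun ⟨a, b, e⟩ => ⟨(a, b), e.symm⟩⟩

theorem E_eq_zero {U V : Cx k A} : E U V = 0 ↔ EZ U V := by
  unfold E
  rw [Module.finrank_zero_iff, Submodule.Quotient.subsingleton_iff, eq_top_iff]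
  exact ⟨fun h x => (mem_Phi x).1 (h trivial), fun h x _ => (mem_Phi x).2 (h x)⟩

theorem EZ.of_le {U V U' V' : Cx k A} (h : EZ U' V') (hle : E U V ≤ E U' V') : EZ U V := by
  rw [← E_eq_zero] at h ⊢; omega

/-- `U` is a homotopy retract of `U'`. -/
structure Retr (U U' : Cx k A) where
  i1 : U.P1 →ₗ[A] U'.P1
  i0 : U.P0 →ₗ[A] U'.P0
  r1 : U'.P1 →ₗ[A] U.P1
  r0 : U'.P0 →ₗ[A] U.P0
  s : U.P0 →ₗ[A] U.P1
  hi : ∀ x, i0 (U.f x) = U'.f (i1 x)
  hr : ∀ x, r0 (U'.f x) = U.f (r1 x)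
  h1 : ∀ x, r1 (i1 x) = x + s (U.f x)
  h0 : ∀ x, r0 (i0 x) = x + U.f (s x)

def pre {X Y : FM k A} (Z : FM k A) (g : X →ₗ[A] Y) : (Y →ₗ[A] Z) →ₗ[k] (X →ₗ[A] Z) where
  toFun a := a ∘ₗ g
  map_add' p q := by ext x; simp
  map_smul' c p := by ext x; simp

def post {Y Z : FM k A} (X : FM k A) (g : Y →ₗ[A] Z) : (X →ₗ[A] Y) →ₗ[k] (X →ₗ[A] Z) where
  toFun a := g ∘ₗ a
  map_add' p q := by ext x; simp
  map_smul' c p := by ext x; simp

@[simp] theorem pre_apply {X Y : FM k A} (Z : FM k A) (g : X →ₗ[A] Y) (a : Y →ₗ[A] Z) :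
    pre Z g a = a ∘ₗ g := rfl
@[simp] theorem post_apply {Y Z : FM k A} (X : FM k A) (g : Y →ₗ[A] Z) (a : X →ₗ[A] Y) :
    post X g a = g ∘ₗ a := rfl

theorem Retr.left {U U' : Cx k A} (R : Retr U U') (V : Cx k A) : E U V ≤ E U' V := by
  apply quot_le _ _ (pre V.P0 R.i1)
  · intro x hx
    obtain ⟨a, b, rfl⟩ := (mem_Phi x).1 hx
    refine (mem_Phi _).2 ⟨a ∘ₗ R.i0, b ∘ₗ R.i1, ?_⟩
    ext x; simp [R.hi]
  · intro y
    refine ⟨y ∘ₗ R.r1, (mem_Phi _).2 ⟨-(y ∘ₗ R.s), 0, ?_⟩⟩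
    ext x; simp [R.h1]

theorem Retr.right {U U' : Cx k A} (R : Retr U U') (V : Cx k A) : E V U ≤ E V U' := by
  apply quot_le _ _ (post V.P1 R.r0)
  · intro x hx
    obtain ⟨a, b, rfl⟩ := (mem_Phi x).1 hx
    refine (mem_Phi _).2 ⟨R.r0 ∘ₗ a, R.r1 ∘ₗ b, ?_⟩
    ext x; simp [R.hr]
  · intro y
    refine ⟨R.i0 ∘ₗ y, (mem_Phi _).2 ⟨0, -(R.s ∘ₗ y), ?_⟩⟩
    ext x; simp [R.h0]

/-- same terms, other differential -/
abbrev Cx.wd (U : Cx k A) (g : U.P1 →ₗ[A] U.P0) : Cx k A := Cx.mk U.P1 U.P0 g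

theorem semi_left (U : Cx k A) (hU : EZ U U) (g : U.P1 →ₗ[A] U.P0) (V : Cx k A) :
    E U V ≤ E (U.wd g) V := by
  let S : Set (U.P0 →ₗ[A] V.P0) := {p | ∃ p0 : U.P0 →ₗ[A] V.P0, ∃ q0 : U.P1 →ₗ[A] V.P1,
    ∃ a : U.P0 →ₗ[A] U.P0, p0 ∘ₗ U.f + V.f ∘ₗ q0 = 0 ∧ p = p0 ∘ₗ a}
  apply pencil (Phi U V) (Phi (U.wd g) V) ((Submodule.span k S).prod ⊤)
  · intro x hx
    exact ⟨Submodule.subset_span ⟨x.1, x.2, LinearMap.id, hx, rfl⟩, trivial⟩
  · have key : ∀ p ∈ Submodule.span k S, ∃ y ∈ (Submodule.span k S).prod ⊤,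
        p ∘ₗ g = Phi U V y := by
      intro p hp
      induction hp using Submodule.span_induction with
      | mem p hp =>
        obtain ⟨p0, q0, a, h0, rfl⟩ := hp
        obtain ⟨a', b', e⟩ := hU (a ∘ₗ g)
        refine ⟨(p0 ∘ₗ a', -(q0 ∘ₗ b')), ⟨Submodule.subset_span ⟨p0, q0, a', h0, rfl⟩, trivial⟩, ?_⟩
        ext x
        have e1 := LinearMap.congr_fun e x
        have e2 := LinearMap.congr_fun h0 (b' x)
        simp only [LinearMap.comp_apply, LinearMap.add_apply, LinearMap.zero_apply] at e1 e2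
        simp only [Phi, LinearMap.comp_apply, LinearMap.coe_mk, AddHom.coe_mk, LinearMap.add_apply,
          LinearMap.neg_apply, map_neg, e1, map_add]
        rw [eq_neg_of_add_eq_zero_left e2]
      | zero => exact ⟨0, Submodule.zero_mem _, by simp⟩
      | add p q _ _ hp hq =>
        obtain ⟨y, hy, e⟩ := hp
        obtain ⟨z, hz, e'⟩ := hq
        exact ⟨y + z, Submodule.add_mem _ hy hz, by rw [map_add, ← e, ← e', LinearMap.add_comp]⟩
      | smul c p _ hp =>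
        obtain ⟨y, hy, e⟩ := hp
        exact ⟨c • y, Submodule.smul_mem _ c hy, by rw [map_smul, ← e, LinearMap.smul_comp]⟩
    intro x hx
    obtain ⟨y, hy, e⟩ := key x.1 hx.1
    refine ⟨y + (0, x.2), Submodule.add_mem _ hy ⟨Submodule.zero_mem _, trivial⟩, ?_⟩
    rw [map_add, ← e]
    simp [Phi]

theorem semi_right (U : Cx k A) (hU : EZ U U) (g : U.P1 →ₗ[A] U.P0) (V : Cx k A) :
    E V U ≤ E V (U.wd g) := by
  let S : Set (V.P1 →ₗ[A] U.P1) := {q | ∃ p0 : V.P0 →ₗ[A] U.P0, ∃ q0 : V.P1 →ₗ[A] U.P1,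
    ∃ b : U.P1 →ₗ[A] U.P1, p0 ∘ₗ V.f + U.f ∘ₗ q0 = 0 ∧ q = b ∘ₗ q0}
  apply pencil (Phi V U) (Phi V (U.wd g)) (Submodule.prod ⊤ (Submodule.span k S))
  · intro x hx
    exact ⟨trivial, Submodule.subset_span ⟨x.1, x.2, LinearMap.id, hx, rfl⟩⟩
  · have key : ∀ q ∈ Submodule.span k S, ∃ y ∈ Submodule.prod ⊤ (Submodule.span k S),
        g ∘ₗ q = Phi V U y := by
      intro p hp
      induction hp using Submodule.span_induction with
      | mem p hp =>
        obtain ⟨p0, q0, b, h0, rfl⟩ := hp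
        obtain ⟨a', b', e⟩ := hU (g ∘ₗ b)
        refine ⟨(-(a' ∘ₗ p0), b' ∘ₗ q0), ⟨trivial, Submodule.subset_span ⟨p0, q0, b', h0, rfl⟩⟩, ?_⟩
        ext x
        have e1 := LinearMap.congr_fun e (q0 x)
        have e2 := LinearMap.congr_fun h0 x
        simp only [LinearMap.comp_apply, LinearMap.add_apply, LinearMap.zero_apply] at e1 e2
        simp only [Phi, LinearMap.comp_apply, LinearMap.coe_mk, AddHom.coe_mk, LinearMap.add_apply,
          LinearMap.neg_apply, e1]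
        rw [eq_neg_of_add_eq_zero_left e2, map_neg, neg_neg]
      | zero => exact ⟨0, Submodule.zero_mem _, by simp⟩
      | add p q _ _ hp hq =>
        obtain ⟨y, hy, e⟩ := hp
        obtain ⟨z, hz, e'⟩ := hq
        exact ⟨y + z, Submodule.add_mem _ hy hz, by rw [map_add, ← e, ← e', LinearMap.comp_add]⟩
      | smul c p _ hp =>
        obtain ⟨y, hy, e⟩ := hp
        exact ⟨c • y, Submodule.smul_mem _ c hy, by rw [map_smul, ← e]; ext x; simp⟩
    intro x hx
    obtain ⟨y, hy, e⟩ := key x.2 hx.2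
    refine ⟨y + (x.1, 0), Submodule.add_mem _ hy ⟨trivial, Submodule.zero_mem _⟩, ?_⟩
    rw [map_add, ← e]
    simp [Phi, add_comm]

theorem semi (M U : Cx k A) (hM : EZ M M) (e : (M.P0 × U.P1) ≃ₗ[A] (U.P0 × M.P1)) (V : Cx k A) :
    E M V ≤ E U V ∧ E V M ≤ E V U := by
  let M' : Cx k A := Cx.mk (M.P1.prod U.P1) (M.P0.prod U.P1) (M.f.prodMap LinearMap.id)
  let g : M'.P1 →ₗ[A] M'.P0 := e.symm.toLinearMap ∘ₗ
    (LinearMap.prod (U.f ∘ₗ LinearMap.snd A M.P1 U.P1) (LinearMap.fst A M.P1 U.P1))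
  let R1 : Retr M M' :=
    { i1 := LinearMap.inl A _ _, i0 := LinearMap.inl A _ _, r1 := LinearMap.fst A _ _,
      r0 := LinearMap.fst A _ _, s := 0,
      hi := fun x => by simp [M'], hr := fun x => rfl, h1 := fun x => by simp [M'],
      h0 := fun x => by simp [M'] }
  let R2 : Retr M' M :=
    { r1 := LinearMap.inl A _ _, r0 := LinearMap.inl A _ _, i1 := LinearMap.fst A _ _,
      i0 := LinearMap.fst A _ _, s := -(LinearMap.inr A M.P1 U.P1 ∘ₗ LinearMap.snd A M.P0 U.P1),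
      hr := fun x => by simp [M'], hi := fun x => rfl,
      h1 := fun x => by ext <;> simp [M'],
      h0 := fun x => by ext <;> simp [M'] }
  let R3 : Retr (M'.wd g) U :=
    { i1 := LinearMap.snd A M.P1 U.P1, i0 := LinearMap.fst A U.P0 M.P1 ∘ₗ e.toLinearMap,
      r1 := LinearMap.inr A M.P1 U.P1, r0 := e.symm.toLinearMap ∘ₗ LinearMap.inl A U.P0 M.P1,
      s := -(LinearMap.inl A M.P1 U.P1 ∘ₗ LinearMap.snd A U.P0 M.P1 ∘ₗ e.toLinearMap),
      hi := fun x => by simp [g],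
      hr := fun x => by simp [g, M'],
      h1 := fun x => by ext <;> simp [g, M'],
      h0 := fun x => by
        apply e.injective
        ext <;> simp [g, M'] }
  have hM' : EZ M' M' := hM.of_le ((R2.left M').trans (R2.right M))
  exact ⟨(R1.left V).trans ((semi_left M' hM' g V).trans (R3.left V)),
    (R1.right V).trans ((semi_right M' hM' g V).trans (R3.right V))⟩

end Pool.Agent.Work.MP_ccf6ab_al
end

-- merged part: Pool.Agent.Work.MP_ccf6ab_al.Tors
section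
set_option autoImplicit false

namespace Pool.Agent.Work.MP_ccf6ab_al

open Module

variable {k : Type} [Field k] {A : Type} [Ring A] [Algebra k A]

/-- the extension of `V` by `W` with class `e` -/
abbrev ext (V W : Cx k A) (e : V.P1 →ₗ[A] W.P0) : Cx k A :=
  Cx.mk (W.P1.prod V.P1) (W.P0.prod V.P0)
    (LinearMap.prod (LinearMap.coprod W.f e) (V.f ∘ₗ LinearMap.snd A W.P1 V.P1))

theorem ext_EZ_left {V W X : Cx k A} (e : V.P1 →ₗ[A] W.P0) (h1 : EZ W X) (h2 : EZ V X) :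
    EZ (ext V W e) X := by
  intro h
  obtain ⟨a, b, e1⟩ := h1 (h ∘ₗ LinearMap.inl A W.P1 V.P1)
  obtain ⟨a', b', e2⟩ := h2 (h ∘ₗ LinearMap.inr A W.P1 V.P1 - a ∘ₗ e)
  refine ⟨LinearMap.coprod a a', LinearMap.coprod b b', ?_⟩
  apply LinearMap.ext
  rintro ⟨x, y⟩
  have e3 := LinearMap.congr_fun e1 x
  have e4 := LinearMap.congr_fun e2 y
  have e5 : h (x, y) = h (x, 0) + h (0, y) := by rw [← map_add]; simp
  simp only [LinearMap.comp_apply, LinearMap.add_apply, LinearMap.inl_apply, LinearMap.inr_apply,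
    LinearMap.sub_apply] at e3 e4
  rw [e5, e3, eq_add_of_sub_eq e4]
  simp
  abel

theorem ext_EZ_right {V W X : Cx k A} (e : V.P1 →ₗ[A] W.P0) (h1 : EZ X W) (h2 : EZ X V) :
    EZ X (ext V W e) := by
  intro h
  obtain ⟨a, b, e1⟩ := h2 (LinearMap.snd A W.P0 V.P0 ∘ₗ h)
  obtain ⟨a', b', e2⟩ := h1 (LinearMap.fst A W.P0 V.P0 ∘ₗ h - e ∘ₗ b)
  refine ⟨LinearMap.prod a' a, LinearMap.prod b' b, ?_⟩
  apply LinearMap.ext
  intro x
  have e3 := LinearMap.congr_fun e1 x
  have e4 := LinearMap.congr_fun e2 x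
  simp only [LinearMap.comp_apply, LinearMap.add_apply, LinearMap.fst_apply, LinearMap.snd_apply,
    LinearMap.sub_apply] at e3 e4
  ext
  · simp [eq_add_of_sub_eq e4]; abel
  · simp [e3]

theorem ext_lt_right {V W : Cx k A} (e : V.P1 →ₗ[A] W.P0) (hV : EZ V V)
    (he : e ∉ LinearMap.range (Phi V W)) : E V (ext V W e) < E V W := by
  apply quot_lt _ _ (post (Z := W.P0.prod V.P0) V.P1 (LinearMap.inl A W.P0 V.P0)) _ _ e he
  · refine (mem_Phi (U := V) (V := ext V W e) _).2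
      ⟨-(LinearMap.inr A W.P0 V.P0), LinearMap.inr A W.P1 V.P1, ?_⟩
    ext x <;> simp [post]
  · intro x hx
    obtain ⟨a, b, rfl⟩ := (mem_Phi x).1 hx
    refine (mem_Phi (U := V) (V := ext V W e) _).2
      ⟨LinearMap.inl A W.P0 V.P0 ∘ₗ a, LinearMap.inl A W.P1 V.P1 ∘ₗ b, ?_⟩
    ext x <;> simp [post]
  · intro y
    obtain ⟨a, b, e1⟩ := hV (LinearMap.snd A W.P0 V.P0 ∘ₗ y)
    refine ⟨LinearMap.fst A W.P0 V.P0 ∘ₗ y - e ∘ₗ b, (mem_Phi (U := V) (V := ext V W e) _).2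
      ⟨LinearMap.inr A W.P0 V.P0 ∘ₗ a, LinearMap.inr A W.P1 V.P1 ∘ₗ b, ?_⟩⟩
    apply LinearMap.ext
    intro x
    have e3 := LinearMap.congr_fun e1 x
    simp only [LinearMap.comp_apply, LinearMap.add_apply, LinearMap.snd_apply] at e3
    ext
    · simp [post]
    · simp [e3, post]

theorem ext_lt_left {V W : Cx k A} (e : V.P1 →ₗ[A] W.P0) (hW : EZ W W)
    (he : e ∉ LinearMap.range (Phi V W)) : E (ext V W e) W < E V W := by
  apply quot_lt _ _ (pre (X := W.P1.prod V.P1) W.P0 (LinearMap.snd A W.P1 V.P1)) _ _ e he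
  · refine (mem_Phi (U := ext V W e) (V := W) _).2
      ⟨LinearMap.fst A W.P0 V.P0, -(LinearMap.fst A W.P1 V.P1), ?_⟩
    ext x <;> simp [pre]
  · intro x hx
    obtain ⟨a, b, rfl⟩ := (mem_Phi x).1 hx
    refine (mem_Phi (U := ext V W e) (V := W) _).2
      ⟨a ∘ₗ LinearMap.snd A W.P0 V.P0, b ∘ₗ LinearMap.snd A W.P1 V.P1, ?_⟩
    ext x <;> simp [pre]
  · intro y
    obtain ⟨a, b, e1⟩ := hW (y ∘ₗ LinearMap.inl A W.P1 V.P1)
    refine ⟨y ∘ₗ LinearMap.inr A W.P1 V.P1 - a ∘ₗ e, (mem_Phi (U := ext V W e) (V := W) _).2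
      ⟨a ∘ₗ LinearMap.fst A W.P0 V.P0, b ∘ₗ LinearMap.fst A W.P1 V.P1, ?_⟩⟩
    apply LinearMap.ext
    rintro ⟨x, z⟩
    have e3 := LinearMap.congr_fun e1 x
    have e5 : y (x, z) = y (x, 0) + y (0, z) := by rw [← map_add]; simp
    simp only [LinearMap.comp_apply, LinearMap.add_apply, LinearMap.inl_apply] at e3
    simp [e5, e3, pre]
    abel

noncomputable def hd (P Z : FM k A) : ℕ := finrank k (P →ₗ[A] Z)

theorem hd_prod (P Q Z : FM k A) : hd (P.prod Q) Z = hd P Z + hd Q Z := by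
  unfold hd
  rw [← Module.finrank_prod]
  exact ((LinearMap.coprodEquiv k).finrank_eq).symm

theorem hd_congr {P Q : FM k A} (e : P ≃ₗ[A] Q) (Z : FM k A) : hd P Z = hd Q Z := by
  apply le_antisymm
  · apply LinearMap.finrank_le_finrank_of_injective (f := pre Z e.symm.toLinearMap)
    intro a b h
    ext x
    simpa using LinearMap.congr_fun h (e x)
  · apply LinearMap.finrank_le_finrank_of_injective (f := pre Z e.toLinearMap)
    intro a b h
    ext x
    simpa using LinearMap.congr_fun h (e.symm x)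

theorem hd_congr_right (P : FM k A) {Y Z : FM k A} (e : Y ≃ₗ[A] Z) : hd P Y = hd P Z := by
  apply le_antisymm
  · apply LinearMap.finrank_le_finrank_of_injective (f := post P e.toLinearMap)
    intro a b h
    ext x
    simpa using LinearMap.congr_fun h x
  · apply LinearMap.finrank_le_finrank_of_injective (f := post P e.symm.toLinearMap)
    intro a b h
    ext x
    simpa using LinearMap.congr_fun h x

theorem hd_ses (P Z : FM k A) [Projective A P] (N : Submodule A Z) :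
    hd P Z = hd P (Z.sub N) + hd P (Z.quo N) := by
  have h1 := LinearMap.finrank_range_add_finrank_ker (post (Z := Z.quo N) P N.mkQ)
  have h2 : LinearMap.range (post (Z := Z.quo N) P N.mkQ) = ⊤ := by
    rw [LinearMap.range_eq_top]
    intro g
    exact Module.projective_lifting_property N.mkQ g N.mkQ_surjective
  have h3 : LinearMap.ker (post (Z := Z.quo N) P N.mkQ) =
      LinearMap.range (post (Y := Z.sub N) P N.subtype) := by
    ext g
    constructor
    · intro hg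
      refine ⟨LinearMap.codRestrict N g (fun x => ?_), rfl⟩
      exact (Submodule.Quotient.mk_eq_zero N).1 (LinearMap.congr_fun hg x)
    · rintro ⟨g, rfl⟩
      ext x
      exact (Submodule.Quotient.mk_eq_zero N).2 (g x).2
  have h4 : finrank k (LinearMap.range (post (Y := Z.sub N) P N.subtype)) = hd P (Z.sub N) := by
    apply LinearMap.finrank_range_of_inj
    intro a b h
    ext x
    exact LinearMap.congr_fun h x
  rw [h2, h3, h4, finrank_top] at h1
  unfold hd at *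
  omega

noncomputable def pr (U : Cx k A) (Z : FM k A) : ℤ := (hd U.P0 Z : ℤ) - hd U.P1 Z

theorem pr_ses (U : Cx k A) (Z : FM k A) (N : Submodule A Z) :
    pr U Z = pr U (Z.sub N) + pr U (Z.quo N) := by
  unfold pr
  rw [hd_ses U.P0 Z N, hd_ses U.P1 Z N]
  push_cast
  ring

def AllRigid (k : Type) [Field k] (A : Type) [Ring A] [Algebra k A] : Prop :=
  ∀ U : Cx k A, ∃ M : Cx k A, EZ M M ∧ Nonempty ((M.P0 × U.P1) ≃ₗ[A] (U.P0 × M.P1))

theorem key (hA : AllRigid k A) {V W : Cx k A} (hV : EZ V V) (hW : EZ W W) (hWV : EZ W V)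
    (hVW : ¬ EZ V W) : ∃ M : Cx k A, EZ M M ∧ EZ M V ∧ EZ W M ∧ E V M < E V W ∧ E M W < E V W ∧
      ∀ Z, pr M Z = pr W Z + pr V Z := by
  obtain ⟨e, he⟩ : ∃ e, e ∉ LinearMap.range (Phi V W) := by
    by_contra h
    push Not at h
    exact hVW fun x => (mem_Phi x).1 (h x)
  obtain ⟨M, hM, ⟨i⟩⟩ := hA (ext V W e)
  have hs := semi M (ext V W e) hM i
  refine ⟨M, hM, (ext_EZ_left e hWV hV).of_le (hs V).1, (ext_EZ_right e hW hWV).of_le (hs W).2,
    (hs V).2.trans_lt (ext_lt_right e hV he), (hs W).1.trans_lt (ext_lt_left e hW he), ?_⟩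
  intro Z
  have h1 := hd_congr (P := M.P0.prod (W.P1.prod V.P1)) (Q := (W.P0.prod V.P0).prod M.P1) i Z
  simp only [hd_prod] at h1
  unfold pr
  omega

def T (U : Cx k A) (X : FM k A) : Prop :=
  ∀ h : U.P1 →ₗ[A] X, ∃ a : U.P0 →ₗ[A] X, h = a ∘ₗ U.f

def F (U : Cx k A) (X : FM k A) : Prop := ∀ a : U.P0 →ₗ[A] X, a ∘ₗ U.f = 0 → a = 0

def G (U : Cx k A) (X : FM k A) : Prop := ∀ Z : FM k A, F U Z → ∀ ρ : X →ₗ[A] Z, ρ = 0

def TP (U : Cx k A) (B : FM k A) : Prop := ∀ Y : FM k A, T U Y → ∀ ρ : Y →ₗ[A] B, ρ = 0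

theorem T_iff {U : Cx k A} {X : FM k A} : T U X ↔ LinearMap.range (pre X U.f) = ⊤ := by
  rw [LinearMap.range_eq_top]
  exact ⟨fun h g => (h g).imp fun a e => e.symm, fun h g => (h g).imp fun a e => e.symm⟩

theorem F_iff {U : Cx k A} {X : FM k A} : F U X ↔ LinearMap.ker (pre X U.f) = ⊥ := by
  rw [LinearMap.ker_eq_bot']
  rfl

theorem pr_eq (U : Cx k A) (X : FM k A) : pr U X = (finrank k (LinearMap.ker (pre X U.f)) : ℤ) -
    finrank k ((U.P1 →ₗ[A] X) ⧸ LinearMap.range (pre X U.f)) := by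
  have h1 := LinearMap.finrank_range_add_finrank_ker (pre X U.f)
  have h2 := Submodule.finrank_quotient_add_finrank (LinearMap.range (pre X U.f))
  unfold pr hd
  omega

theorem T_iff' {U : Cx k A} {X : FM k A} :
    T U X ↔ finrank k ((U.P1 →ₗ[A] X) ⧸ LinearMap.range (pre X U.f)) = 0 := by
  rw [T_iff, Module.finrank_zero_iff, Submodule.Quotient.subsingleton_iff]

theorem F_iff' {U : Cx k A} {X : FM k A} :
    F U X ↔ finrank k (LinearMap.ker (pre X U.f)) = 0 := by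
  rw [F_iff, Submodule.finrank_eq_zero]

theorem T.nonneg {U : Cx k A} {X : FM k A} (h : T U X) : 0 ≤ pr U X := by
  rw [pr_eq, T_iff'.1 h]; omega

theorem F.nonpos {U : Cx k A} {X : FM k A} (h : F U X) : pr U X ≤ 0 := by
  rw [pr_eq, F_iff'.1 h]; omega

theorem T.toF {U : Cx k A} {X : FM k A} (h : T U X) (h' : pr U X ≤ 0) : F U X := by
  rw [pr_eq, T_iff'.1 h] at h'; rw [F_iff']; omega

theorem F.toT {U : Cx k A} {X : FM k A} (h : F U X) (h' : 0 ≤ pr U X) : T U X := by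
  rw [pr_eq, F_iff'.1 h] at h'; rw [T_iff']; omega

theorem T.quot {U : Cx k A} {X Y : FM k A} (h : T U X) (p : X →ₗ[A] Y)
    (hp : Function.Surjective p) : T U Y := by
  intro g
  obtain ⟨g', rfl⟩ := Module.projective_lifting_property p g hp
  obtain ⟨a, rfl⟩ := h g'
  exact ⟨p ∘ₗ a, rfl⟩

theorem F.sub {U : Cx k A} {X Y : FM k A} (h : F U X) (i : Y →ₗ[A] X)
    (hi : Function.Injective i) : F U Y := by
  intro a ha
  have := h (i ∘ₗ a) (by rw [LinearMap.comp_assoc, ha, LinearMap.comp_zero])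
  ext x
  apply hi
  simpa using LinearMap.congr_fun this x

theorem G.quot {U : Cx k A} {X Y : FM k A} (h : G U X) (p : X →ₗ[A] Y)
    (hp : Function.Surjective p) : G U Y := by
  intro Z hZ ρ
  have := h Z hZ (ρ ∘ₗ p)
  ext y
  obtain ⟨x, rfl⟩ := hp y
  exact LinearMap.congr_fun this x

theorem TP.sub {U : Cx k A} {X Y : FM k A} (h : TP U X) (i : Y →ₗ[A] X)
    (hi : Function.Injective i) : TP U Y := by
  intro Z hZ ρ
  have := h Z hZ (i ∘ₗ ρ)
  ext x
  apply hi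
  simpa using LinearMap.congr_fun this x

structure Tors (𝒯 : FM k A → Prop) : Prop where
  zero : ∀ X : FM k A, Subsingleton X → 𝒯 X
  quot : ∀ (X Y : FM k A) (p : X →ₗ[A] Y), Function.Surjective p → 𝒯 X → 𝒯 Y
  ext : ∀ (X' X X'' : FM k A) (i : X' →ₗ[A] X) (p : X →ₗ[A] X''), Function.Surjective p →
    LinearMap.ker p ≤ LinearMap.range i → 𝒯 X' → 𝒯 X'' → 𝒯 X

theorem T_tors (U : Cx k A) : Tors (T U) where
  zero X hX := fun h => ⟨0, by ext x; exact Subsingleton.elim _ _⟩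
  quot X Y p hp h := h.quot p hp
  ext X' X X'' i p hp hk h1 h2 := by
    intro h
    obtain ⟨a, ha⟩ := h2 (p ∘ₗ h)
    obtain ⟨a', rfl⟩ := Module.projective_lifting_property p a hp
    have hm : ∀ x, (h - a' ∘ₗ U.f) x ∈ LinearMap.range i := fun x => hk (by
      have := LinearMap.congr_fun ha x
      simp only [LinearMap.comp_apply] at this
      simp [this])
    obtain ⟨h', hh⟩ := Module.projective_lifting_property i.rangeRestrict
      (LinearMap.codRestrict _ _ hm) i.surjective_rangeRestrict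
    obtain ⟨b, rfl⟩ := h1 h'
    refine ⟨a' + i ∘ₗ b, ?_⟩
    ext x
    have := congrArg Subtype.val (LinearMap.congr_fun hh x)
    simp only [LinearMap.comp_apply, LinearMap.codRestrict_apply, LinearMap.sub_apply,
      LinearMap.rangeRestrict] at this
    simp [this]

theorem factor_zero {X X'' Z : FM k A} (p : X →ₗ[A] X'') (hp : Function.Surjective p)
    (ρ : X →ₗ[A] Z) (h : LinearMap.ker p ≤ LinearMap.ker ρ)
    (h0 : ∀ σ : X'' →ₗ[A] Z, σ = 0) : ρ = 0 := by
  have := h0 ((LinearMap.ker p).liftQ ρ h ∘ₗ (p.quotKerEquivOfSurjective hp).symm.toLinearMap)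
  ext x
  have h2 := LinearMap.congr_fun this (p x)
  have h3 : (p.quotKerEquivOfSurjective hp).symm (p x) = Submodule.Quotient.mk x := by
    rw [LinearEquiv.symm_apply_eq]; rfl
  simpa [h3] using h2

theorem G_tors (U : Cx k A) : Tors (G U) where
  zero X hX := fun Z _ ρ => by ext x; rw [Subsingleton.elim x 0]; simp
  quot X Y p hp h := h.quot p hp
  ext X' X X'' i p hp hk h1 h2 := by
    intro Z hZ ρ
    apply factor_zero p hp ρ _ (h2 Z hZ)
    intro x hx
    obtain ⟨y, rfl⟩ := hk hx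
    exact LinearMap.congr_fun (h1 Z hZ (ρ ∘ₗ i)) y

theorem sub_eq_of_finrank {X : FM k A} {N N' : Submodule A X} (h : N ≤ N')
    (h' : finrank k N' ≤ finrank k N) : N = N' :=
  Submodule.restrictScalars_injective k A X
    (Submodule.eq_of_le_of_finrank_le (S₁ := N.restrictScalars k) (S₂ := N'.restrictScalars k)
      h h')

theorem sub_finrank_le {X : FM k A} (N : Submodule A X) : finrank k N ≤ finrank k X :=
  Submodule.finrank_le (N.restrictScalars k)

theorem Tors.part {𝒯 : FM k A → Prop} (h : Tors 𝒯) (X : FM k A) :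
    ∃ t : Submodule A X, 𝒯 (X.sub t) ∧ ∀ Y : FM k A, 𝒯 Y → ∀ ρ : Y →ₗ[A] X.quo t, ρ = 0 := by
  obtain ⟨t, ht, hmax⟩ : ∃ t : Submodule A X, 𝒯 (X.sub t) ∧ ∀ t' : Submodule A X,
      𝒯 (X.sub t') → finrank k X - finrank k t ≤ finrank k X - finrank k t' := by
    obtain ⟨⟨t, ht⟩, hm⟩ := exists_minimalFor_of_wellFoundedLT
      (fun _ : {t : Submodule A X // 𝒯 (X.sub t)} => True)
      (fun t => finrank k X - finrank k t.1)
      ⟨⟨⊥, h.zero _ (inferInstanceAs (Subsingleton (⊥ : Submodule A X)))⟩, trivial⟩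
    exact ⟨t, ht, fun t' ht' => le_of_not_gt fun hlt => hlt.not_ge (hm.2 (j := ⟨t', ht'⟩) trivial hlt.le)⟩
  refine ⟨t, ht, fun Y hY ρ => ?_⟩
  have hle : t ≤ (LinearMap.range ρ).comap t.mkQ := fun x hx => by
    simp [(Submodule.Quotient.mk_eq_zero t).2 hx]
  have h1 : 𝒯 (X.sub ((LinearMap.range ρ).comap t.mkQ)) := by
    apply h.ext (X.sub t) (X.sub ((LinearMap.range ρ).comap t.mkQ))
      ((X.quo t).sub (LinearMap.range ρ)) (Submodule.inclusion hle)
      (LinearMap.codRestrict (LinearMap.range ρ)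
        (t.mkQ ∘ₗ ((LinearMap.range ρ).comap t.mkQ).subtype)
        (fun x : ((LinearMap.range ρ).comap t.mkQ) => x.2)) _ _ ht
      (h.quot Y _ ρ.rangeRestrict ρ.surjective_rangeRestrict hY)
    · rintro ⟨y, hy⟩
      obtain ⟨x, rfl⟩ := t.mkQ_surjective y
      exact ⟨⟨x, hy⟩, rfl⟩
    · intro x hx
      exact ⟨⟨x.1, (Submodule.Quotient.mk_eq_zero t).1 (congrArg Subtype.val hx)⟩, rfl⟩
  have h2 := hmax _ h1
  have h3 := sub_finrank_le ((LinearMap.range ρ).comap t.mkQ)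
  have h4 := sub_finrank_le t
  have h5 := sub_eq_of_finrank hle (by omega)
  ext y
  obtain ⟨x, hx⟩ := t.mkQ_surjective (ρ y)
  have : x ∈ t := h5 ▸ (show x ∈ (LinearMap.range ρ).comap t.mkQ from ⟨y, hx.symm⟩)
  rw [← hx]
  exact (Submodule.Quotient.mk_eq_zero t).2 this

/-- cokernel -/
abbrev Cx.H (U : Cx k A) : FM k A := U.P0.quo (LinearMap.range U.f)

theorem F_of_hom {U : Cx k A} {X : FM k A} (h : ∀ ρ : U.H →ₗ[A] X, ρ = 0) : F U X := by
  intro a ha
  have := h ((LinearMap.range U.f).liftQ a (LinearMap.range_le_ker_iff.2 ha))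
  ext x
  exact LinearMap.congr_fun this (Submodule.Quotient.mk x)

theorem G_H (U : Cx k A) : G U U.H := by
  intro Z hZ ρ
  have := hZ (ρ ∘ₗ (LinearMap.range U.f).mkQ) (by
    rw [LinearMap.comp_assoc, LinearMap.range_mkQ_comp, LinearMap.comp_zero])
  ext x
  exact LinearMap.congr_fun this x

theorem EZ.T_H {U V : Cx k A} (h : EZ U V) : T U V.H := by
  intro g
  obtain ⟨g', rfl⟩ := Module.projective_lifting_property (LinearMap.range V.f).mkQ g
    (Submodule.mkQ_surjective _)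
  obtain ⟨a, b, rfl⟩ := h g'
  refine ⟨(LinearMap.range V.f).mkQ ∘ₗ a, ?_⟩
  ext x
  simp

theorem T_part (U : Cx k A) (X : FM k A) :
    ∃ t : Submodule A X, T U (X.sub t) ∧ TP U (X.quo t) := (T_tors U).part X

theorem G_part (U : Cx k A) (X : FM k A) :
    ∃ t : Submodule A X, G U (X.sub t) ∧ F U (X.quo t) := by
  obtain ⟨t, h1, h2⟩ := (G_tors U).part X
  exact ⟨t, h1, F_of_hom (h2 _ (G_H U))⟩

theorem top_of_mkQ {X : FM k A} {t : Submodule A X} (h : t.mkQ = 0) : t = ⊤ :=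
  eq_top_iff.2 fun x _ => (Submodule.Quotient.mk_eq_zero t).1 (LinearMap.congr_fun h x)

theorem Tors.of_top {𝒯 : FM k A → Prop} (h : Tors 𝒯) {X : FM k A} {t : Submodule A X}
    (ht : t = ⊤) (h1 : 𝒯 (X.sub t)) : 𝒯 X :=
  h.quot (X.sub t) X t.subtype (fun x => ⟨⟨x, ht ▸ trivial⟩, rfl⟩) h1

theorem EZ.F_of_TP {U V : Cx k A} (h : EZ U V) {X : FM k A} (hX : TP U X) : F V X :=
  F_of_hom (hX _ h.T_H)

theorem EZ.T_of_G {U V : Cx k A} (h : EZ U V) {X : FM k A} (hX : G V X) : T U X := by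
  obtain ⟨t, h1, h2⟩ := T_part U X
  exact (T_tors U).of_top (top_of_mkQ (hX _ (h.F_of_TP h2) _)) h1

end Pool.Agent.Work.MP_ccf6ab_al
end

-- merged part: Pool.Agent.Work.MP_ccf6ab_al.Sign
section
set_option autoImplicit false

namespace Pool.Agent.Work.MP_ccf6ab_al

open Module

variable {k : Type} [Field k] {A : Type} [Ring A] [Algebra k A]

instance FM.art (Z : FM k A) : IsArtinian A Z := isArtinian_of_tower k inferInstance

instance FM.noeth (Z : FM k A) : IsNoetherian A Z := isNoetherian_of_tower k inferInstance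

theorem simple_sub (Z : FM k A) [Nontrivial Z] : ∃ N : Submodule A Z, IsSimpleModule A N := by
  obtain ⟨N, hN⟩ := IsAtomic.exists_atom (Submodule A Z)
  exact ⟨N, isSimpleModule_iff_isAtom.2 hN⟩

theorem simple_quo (Z : FM k A) [Nontrivial Z] :
    ∃ N : Submodule A Z, IsSimpleModule A (Z ⧸ N) := by
  obtain ⟨N, hN⟩ := IsCoatomic.exists_coatom (Submodule A Z)
  exact ⟨N, isSimpleModule_iff_isCoatom.2 hN⟩

theorem finrank_ses (Z : FM k A) (N : Submodule A Z) :
    finrank k (Z ⧸ N) + finrank k N = finrank k Z := by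
  have h := Submodule.finrank_quotient_add_finrank (N.restrictScalars k)
  rw [(Submodule.Quotient.restrictScalarsEquiv k N).finrank_eq] at h
  exact h

theorem pr_congr (U : Cx k A) {Y Z : FM k A} (e : Y ≃ₗ[A] Z) : pr U Y = pr U Z := by
  unfold pr
  rw [hd_congr_right U.P0 e, hd_congr_right U.P1 e]

theorem pr_zero (U : Cx k A) (Z : FM k A) [Subsingleton Z] : pr U Z = 0 := by
  have h : ∀ P : FM k A, hd P Z = 0 := fun P => Module.finrank_zero_of_subsingleton
  unfold pr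
  rw [h, h]
  rfl

structure Two (S1 S2 : FM k A) : Prop where
  s1 : IsSimpleModule A S1
  s2 : IsSimpleModule A S2
  all : ∀ S : FM k A, IsSimpleModule A S → Nonempty (S ≃ₗ[A] S1) ∨ Nonempty (S ≃ₗ[A] S2)

theorem Two.mult {S1 S2 : FM k A} (h : Two S1 S2) (Z : FM k A) :
    ∃ a b : ℕ, (Nontrivial Z → 0 < a + b) ∧ ∀ U : Cx k A, pr U Z = a * pr U S1 + b * pr U S2 := by
  induction hn : finrank k Z using Nat.strong_induction_on generalizing Z with
  | _ n ih =>
  rcases subsingleton_or_nontrivial Z with hZ | hZ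
  · exact ⟨0, 0, fun h => absurd hZ (not_subsingleton Z), fun U => by simp [pr_zero]⟩
  obtain ⟨N, hN⟩ := simple_sub Z
  have h1 := finrank_ses Z N
  have h2 : 0 < finrank k N := by
    have := hN.nontrivial
    exact Module.finrank_pos (R := k) (M := Z.sub N)
  obtain ⟨a, b, -, hab⟩ := ih (finrank k (Z.quo N)) (by change finrank k (Z ⧸ N) < n; omega)
    (Z.quo N) rfl
  rcases h.all (Z.sub N) hN with ⟨⟨e⟩⟩ | ⟨⟨e⟩⟩
  · refine ⟨a + 1, b, fun _ => by omega, fun U => ?_⟩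
    rw [pr_ses U Z N, hab, pr_congr U e]; push_cast; ring
  · refine ⟨a, b + 1, fun _ => by omega, fun U => ?_⟩
    rw [pr_ses U Z N, hab, pr_congr U e]; push_cast; ring

noncomputable def dt (S1 S2 : FM k A) (W V : Cx k A) : ℤ :=
  pr V S1 * pr W S2 - pr W S1 * pr V S2

theorem Two.sign1 {S1 S2 : FM k A} (h : Two S1 S2) {W M : Cx k A} (hz : pr M S2 < 0)
    {Z : FM k A} (hZ : Nontrivial Z) (h0 : pr M Z = 0) : 0 < dt S1 S2 W M ↔ 0 < pr W Z := by
  obtain ⟨a, b, hab, e⟩ := h.mult Z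
  have h1 := hab hZ
  rw [e] at h0 ⊢
  have ha : (0 : ℤ) < a := by
    rcases Nat.eq_zero_or_pos a with rfl | ha
    · have : (0 : ℤ) < b := by omega
      push_cast at h0
      nlinarith
    · omega
  have e2 : (-pr M S2) * (a * pr W S1 + b * pr W S2) = a * dt S1 S2 W M := by
    unfold dt
    linear_combination (-pr W S2) * h0
  constructor
  · intro hd
    by_contra hc
    nlinarith
  · intro hd
    by_contra hc
    nlinarith

theorem Two.sign2 {S1 S2 : FM k A} (h : Two S1 S2) {W M : Cx k A} (hx : 0 < pr W S1)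
    (hd : 0 < dt S1 S2 W M) {Z : FM k A} (hZ : Nontrivial Z) (h0 : pr W Z = 0) : pr M Z < 0 := by
  obtain ⟨a, b, hab, e⟩ := h.mult Z
  have h1 := hab hZ
  rw [e] at h0 ⊢
  have hb : (0 : ℤ) < b := by
    rcases Nat.eq_zero_or_pos b with rfl | hb
    · have : (0 : ℤ) < a := by omega
      push_cast at h0
      nlinarith
    · omega
  have e2 : pr W S1 * (a * pr M S1 + b * pr M S2) = - (b * dt S1 S2 W M) := by
    unfold dt
    linear_combination (pr M S1) * h0
  by_contra hc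
  nlinarith

theorem sub_of_id {X : FM k A} (h : (LinearMap.id : X →ₗ[A] X) = 0) : Subsingleton X :=
  ⟨fun x y => by
    have h1 := LinearMap.congr_fun h x
    have h2 := LinearMap.congr_fun h y
    simp only [LinearMap.id_apply, LinearMap.zero_apply] at h1 h2
    rw [h1, h2]⟩

theorem F.congr {U : Cx k A} {X Y : FM k A} (h : F U X) (e : Y ≃ₗ[A] X) : F U Y :=
  h.sub e.toLinearMap e.injective

theorem Two.lemC {S1 S2 : FM k A} (h : Two S1 S2) {W M : Cx k A} (hM : EZ M M) (hWM : EZ W M)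
    (hx : 0 < pr W S1) (hz : pr M S2 < 0) (hd : 0 < dt S1 S2 W M) {X : FM k A} (hX : T M X) :
    G W X := by
  obtain ⟨t, h1, h2⟩ := G_part W X
  refine (G_tors W).of_top ?_ h1
  have h3 : T M (X.quo t) := hX.quot t.mkQ t.mkQ_surjective
  obtain ⟨s, h4, h5⟩ := G_part M (X.quo t)
  have h6 : pr W ((X.quo t).sub s) = 0 :=
    le_antisymm (h2.sub s.subtype Subtype.val_injective).nonpos (hWM.T_of_G h4).nonneg
  have h7 : Subsingleton s := by
    by_contra hc
    have := h.sign2 hx hd (not_subsingleton_iff_nontrivial.1 hc) h6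
    have := (hM.T_of_G h4).nonneg
    omega
  have h8 : F M (X.quo t) := h5.sub s.mkQ (by
    rw [← LinearMap.ker_eq_bot, Submodule.ker_mkQ]
    exact Submodule.eq_bot_of_subsingleton)
  have h9 : Subsingleton (X ⧸ t) := by
    by_contra hc
    have := (h.sign1 (W := W) hz (Z := X.quo t) (not_subsingleton_iff_nontrivial.1 hc)
      (le_antisymm h8.nonpos h3.nonneg)).1 hd
    have := h2.nonpos
    omega
  exact Submodule.Quotient.subsingleton_iff.1 h9

theorem T.sub_of_F {U : Cx k A} {X : FM k A} (h : T U X) (K : Submodule A X)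
    (hF : F U (X.quo K)) : T U (X.sub K) := by
  intro g
  obtain ⟨a, ha⟩ := h (K.subtype ∘ₗ g)
  have h1 := hF (K.mkQ ∘ₗ a) (by
    rw [LinearMap.comp_assoc, ← ha]
    ext x
    exact (Submodule.Quotient.mk_eq_zero K).2 (g x).2)
  refine ⟨LinearMap.codRestrict K a fun x =>
    (Submodule.Quotient.mk_eq_zero K).1 (LinearMap.congr_fun h1 x), ?_⟩
  ext x
  exact LinearMap.congr_fun ha x

theorem T.lift {U : Cx k A} {X : FM k A} {t : Submodule A X} (h : T U (X.sub t))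
    (c : U.P0 →ₗ[A] X.quo t) (hc : c ∘ₗ U.f = 0) :
    ∃ c' : U.P0 →ₗ[A] X, c' ∘ₗ U.f = 0 ∧ t.mkQ ∘ₗ c' = c := by
  obtain ⟨c0, rfl⟩ := Module.projective_lifting_property t.mkQ c t.mkQ_surjective
  obtain ⟨a, ha⟩ := h (LinearMap.codRestrict t (c0 ∘ₗ U.f) fun x =>
    (Submodule.Quotient.mk_eq_zero t).1 (LinearMap.congr_fun hc x))
  refine ⟨c0 - t.subtype ∘ₗ a, ?_, ?_⟩
  · ext x
    have := congrArg Subtype.val (LinearMap.congr_fun ha x)
    simp only [LinearMap.codRestrict_apply, LinearMap.comp_apply] at this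
    simp [this]
  · ext x
    simp [(Submodule.Quotient.mk_eq_zero t).2 (a x).2]

theorem G.fac {W : Cx k A} (hW : EZ W W) {X Y : FM k A} (hX : G W X) (g : X →ₗ[A] Y)
    (hg : ∀ a : W.P0 →ₗ[A] X, a ∘ₗ W.f = 0 → g ∘ₗ a = 0) : g = 0 := by
  obtain ⟨τ, h1, h2⟩ := T_part W (X.sub (LinearMap.ker g))
  let t : Submodule A X := τ.map (LinearMap.ker g).subtype
  have h3 : T W (X.sub t) := h1.quot (Submodule.equivMapOfInjective _ Subtype.val_injective τ).toLinearMap
    (Submodule.equivMapOfInjective _ Subtype.val_injective τ).surjective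
  have h4 : F W (X.quo t) := by
    intro c hc
    obtain ⟨c', hc', rfl⟩ := h3.lift c hc
    have h5 := hW.F_of_TP h2 (τ.mkQ ∘ₗ LinearMap.codRestrict (LinearMap.ker g) c'
      fun x => LinearMap.congr_fun (hg c' hc') x) (by
        ext x
        have : (LinearMap.codRestrict (LinearMap.ker g) c'
          fun x => LinearMap.congr_fun (hg c' hc') x) (W.f x) = 0 :=
          Subtype.ext (LinearMap.congr_fun hc' x)
        simp [this])
    ext x
    exact (Submodule.Quotient.mk_eq_zero t).2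
      ⟨_, (Submodule.Quotient.mk_eq_zero τ).1 (LinearMap.congr_fun h5 x), rfl⟩
  have h6 := top_of_mkQ (hX _ h4 t.mkQ)
  ext x
  obtain ⟨y, -, rfl⟩ : x ∈ t := h6 ▸ trivial
  exact y.2

end Pool.Agent.Work.MP_ccf6ab_al
end

-- merged part: Pool.Agent.Work.MP_ccf6ab_al.BaseD
section
set_option autoImplicit false

namespace Pool.Agent.Work.MP_ccf6ab_al

open Module

variable {k : Type} [Field k] {A : Type} [Ring A] [Algebra k A]

theorem proj_of_compl {P : FM k A} [Projective A P] {N N' : Submodule A P} (h : IsCompl N N') :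
    Projective A N :=
  Module.Projective.of_split N.subtype (N.projectionOnto N' h)
    (Submodule.projectionOnto_comp_subtype h)

theorem sub_lt {X : FM k A} {N : Submodule A X} (h : N ≠ ⊤) : finrank k N < finrank k X := by
  by_contra hc
  apply h
  apply sub_eq_of_finrank le_top
  have := sub_finrank_le (⊤ : Submodule A X)
  omega

theorem split_retr (W : Cx k A) {N1 N1' : Submodule A W.P1} {N0 N0' : Submodule A W.P0}
    (h1 : IsCompl N1 N1') (h0 : IsCompl N0 N0') (a : ∀ x ∈ N1, W.f x ∈ N0)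
    (b : ∀ x ∈ N1', W.f x ∈ N0') :
    ∃ W' : Cx k A, ∃ R : Retr W' W, finrank k W'.P0 = finrank k N0 ∧ LinearMap.range R.i0 = N0 := by
  have := proj_of_compl h1
  have := proj_of_compl h0
  refine ⟨Cx.mk (W.P1.sub N1) (W.P0.sub N0) (W.f.restrict a),
    { i1 := N1.subtype, i0 := N0.subtype, r1 := N1.projectionOnto N1' h1,
      r0 := N0.projectionOnto N0' h0, s := 0, hi := fun x => rfl, hr := fun x => ?_,
      h1 := fun x => by simp, h0 := fun x => by simp }, rfl, Submodule.range_subtype _⟩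
  obtain ⟨u, hu, v, hv, rfl⟩ := Submodule.mem_sup.1 (h1.sup_eq_top ▸ Submodule.mem_top (x := x))
  rw [map_add, map_add, map_add, Submodule.projectionOnto_apply_of_mem_right h1 hv,
    Submodule.projectionOnto_apply_of_mem_right h0 (b v hv),
    Submodule.projectionOnto_apply_of_mem_left h1 hu,
    Submodule.projectionOnto_apply_of_mem_left h0 (a u hu), add_zero, add_zero]
  rfl

theorem fitting (W : Cx k A) (p1 : W.P1 →ₗ[A] W.P1) (p0 : W.P0 →ₗ[A] W.P0)
    (hc : ∀ x, p0 (W.f x) = W.f (p1 x)) : ∃ n : ℕ, ∃ W' : Cx k A, ∃ R : Retr W' W,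
      finrank k W'.P0 = finrank k (LinearMap.ker (p0 ^ (n + 1))) ∧
      LinearMap.range R.i0 ⊔ LinearMap.range (p0 ^ (n + 1)) = ⊤ := by
  obtain ⟨n, hn⟩ := Filter.eventually_atTop.1
    ((LinearMap.eventually_isCompl_ker_pow_range_pow (R := A) (M := W.P1) p1).and
    (LinearMap.eventually_isCompl_ker_pow_range_pow (R := A) (M := W.P0) p0))
  obtain ⟨h1, h0⟩ := hn (n + 1) (by omega)
  have hp : ∀ m : ℕ, ∀ x, (p0 ^ m) (W.f x) = W.f ((p1 ^ m) x) := by
    intro m
    induction m with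
    | zero => intro x; rfl
    | succ m ih => intro x; rw [pow_succ', pow_succ', Module.End.mul_apply, Module.End.mul_apply, ih, hc]
  obtain ⟨W', R, e1, e2⟩ := split_retr W h1 h0
    (fun x hx => by rw [LinearMap.mem_ker] at hx ⊢; rw [hp, hx, map_zero])
    (by rintro _ ⟨x, rfl⟩; exact ⟨W.f x, hp _ x⟩)
  exact ⟨n, W', R, e1, by rw [e2]; exact h0.sup_eq_top⟩

theorem F.inf {U : Cx k A} {X : FM k A} {K K' : Submodule A X} (h : F U (X.quo K))
    (h' : F U (X.quo K')) : F U (X.quo (K ⊓ K')) := by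
  intro a ha
  have h1 := h (Submodule.factor inf_le_left ∘ₗ a) (by rw [LinearMap.comp_assoc, ha]; rfl)
  have h2 := h' (Submodule.factor inf_le_right ∘ₗ a) (by rw [LinearMap.comp_assoc, ha]; rfl)
  ext x
  have h3 := LinearMap.congr_fun h1 x
  have h4 := LinearMap.congr_fun h2 x
  obtain ⟨y, hy⟩ := (K ⊓ K').mkQ_surjective (a x)
  simp only [LinearMap.comp_apply, ← hy] at h3 h4
  rw [← hy]
  exact (Submodule.Quotient.mk_eq_zero _).2
    ⟨(Submodule.Quotient.mk_eq_zero _).1 h3, (Submodule.Quotient.mk_eq_zero _).1 h4⟩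

theorem F.quoKer {U : Cx k A} {X L : FM k A} (h : F U L) (φ : X →ₗ[A] L) :
    F U (X.quo (LinearMap.ker φ)) :=
  h.sub ((LinearMap.ker φ).liftQ φ le_rfl) (by
    rw [← LinearMap.ker_eq_bot]; exact Submodule.ker_liftQ_eq_bot _ _ _ le_rfl)

theorem exists_fix {W : Cx k A} (hW : EZ W W) {Y : FM k A} (hY : ¬ F W Y) (K : Submodule A W.H)
    (hK : G W (W.H.sub K)) (h0 : ∀ ρ : W.H →ₗ[A] Y, K ≤ LinearMap.ker ρ → ρ = 0) :
    ∃ g : W.H →ₗ[A] Y, g ≠ 0 ∧ ∃ ψ : W.H →ₗ[A] W.H, (∀ x, ψ x ∈ K) ∧ g ∘ₗ ψ = g := by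
  have hex : ∃ g : W.H →ₗ[A] Y, g ≠ 0 := by
    by_contra hc
    push Not at hc
    exact hY (F_of_hom hc)
  obtain ⟨g, hg, hmin⟩ := exists_minimalFor_of_wellFoundedLT (fun g : W.H →ₗ[A] Y => g ≠ 0)
    (fun g => finrank k (LinearMap.range (post W.H g))) hex
  obtain ⟨a, ha, hga⟩ : ∃ a : W.P0 →ₗ[A] W.H.sub K, a ∘ₗ W.f = 0 ∧ (g ∘ₗ K.subtype) ∘ₗ a ≠ 0 := by
    by_contra hc
    push Not at hc
    have := hK.fac hW (g ∘ₗ K.subtype) hc
    exact hg (h0 g fun x hx => LinearMap.congr_fun this ⟨x, hx⟩)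
  let ψ : W.H →ₗ[A] W.H := K.subtype ∘ₗ (LinearMap.range W.f).liftQ a (LinearMap.range_le_ker_iff.2 ha)
  have hψ : g ∘ₗ ψ ≠ 0 := fun h => hga (by
    ext x
    exact LinearMap.congr_fun h (Submodule.Quotient.mk x))
  have hle : LinearMap.range (post W.H (g ∘ₗ ψ)) ≤ LinearMap.range (post W.H g) := by
    rintro _ ⟨c, rfl⟩
    exact ⟨ψ ∘ₗ c, rfl⟩
  have heq := Submodule.eq_of_le_of_finrank_le hle (hmin hψ (Submodule.finrank_mono hle))
  obtain ⟨c, hc⟩ : g ∈ LinearMap.range (post W.H (g ∘ₗ ψ)) := heq ▸ ⟨LinearMap.id, rfl⟩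
  exact ⟨g, hg, ψ ∘ₗ c, fun x => Subtype.prop _, hc⟩

theorem exists_chain (W : Cx k A) (ψ : W.H →ₗ[A] W.H) :
    ∃ p1 : W.P1 →ₗ[A] W.P1, ∃ p0 : W.P0 →ₗ[A] W.P0, (∀ x, p0 (W.f x) = W.f (p1 x)) ∧
      ∀ x, (LinearMap.range W.f).mkQ (p0 x) = ψ ((LinearMap.range W.f).mkQ x) := by
  obtain ⟨p0, h0⟩ := Module.projective_lifting_property (LinearMap.range W.f).mkQ
    (ψ ∘ₗ (LinearMap.range W.f).mkQ) (Submodule.mkQ_surjective _)
  have hm : ∀ x, (p0 ∘ₗ W.f) x ∈ LinearMap.range W.f := fun x => by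
    apply (Submodule.Quotient.mk_eq_zero _).1
    have h1 := LinearMap.congr_fun h0 (W.f x)
    have h2 : (LinearMap.range W.f).mkQ (W.f x) = 0 :=
      (Submodule.Quotient.mk_eq_zero _).2 ⟨x, rfl⟩
    simp only [LinearMap.comp_apply, h2, map_zero] at h1
    exact h1
  obtain ⟨p1, h1⟩ := Module.projective_lifting_property W.f.rangeRestrict
    (LinearMap.codRestrict _ _ hm) W.f.surjective_rangeRestrict
  exact ⟨p1, p0, fun x => (congrArg Subtype.val (LinearMap.congr_fun h1 x)).symm,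
    fun x => LinearMap.congr_fun h0 x⟩

theorem Two.xpos {S1 S2 : FM k A} (h : Two S1 S2) {W M : Cx k A} (hMW : EZ M W)
    (hxM : 0 < pr M S1) (hz : pr M S2 < 0) (hd : 0 < dt S1 S2 W M) : 0 < pr W S1 := by
  have hF : F W S2 := by
    intro a ha
    by_contra hne
    have := h.s2
    have hs : Function.Surjective a := LinearMap.surjective_of_ne_zero hne
    have h1 : T M S2 := hMW.T_H.quot
      ((LinearMap.range W.f).liftQ a (LinearMap.range_le_ker_iff.2 ha)) (fun y => by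
        obtain ⟨x, rfl⟩ := hs y
        exact ⟨Submodule.Quotient.mk x, rfl⟩)
    have := h1.nonneg
    omega
  have := hF.nonpos
  unfold dt at hd
  by_contra hc
  nlinarith

theorem Two.baseD {S1 S2 : FM k A} (h : Two S1 S2) {M : Cx k A} (hM : EZ M M)
    (hxM : 0 < pr M S1) (hz : pr M S2 < 0) {L Y : FM k A} (hL : Nontrivial L) (hLT : T M L)
    (hLF : F M L) (hs : ∀ N : Submodule A L, T M (L.sub N) → N = ⊥ ∨ N = ⊤) (hYn : Nontrivial Y)
    (hY : T M Y) (h0 : ∀ ρ : L →ₗ[A] Y, ρ = 0) (W : Cx k A) (hW : EZ W W) (hWM : EZ W M)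
    (hMW : EZ M W) (hd : 0 < dt S1 S2 W M) : False := by
  induction hn : finrank k W.P0 using Nat.strong_induction_on generalizing W with
  | _ n ih =>
  have hx := h.xpos hMW hxM hz hd
  have hC : ∀ X : FM k A, T M X → G W X := fun X hX => h.lemC hM hWM hx hz hd hX
  have hL0 : pr M L = 0 := le_antisymm hLF.nonpos hLT.nonneg
  obtain ⟨K, ⟨hK1, hK2⟩, hmin⟩ := exists_minimal_of_wellFoundedLT
    (fun K : Submodule A W.H => F M (W.H.quo K) ∧ ∀ ρ : W.H →ₗ[A] Y, K ≤ LinearMap.ker ρ → ρ = 0)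
    ⟨⊤, fun a _ => by ext x; exact Subsingleton.elim _ _, fun ρ hρ => by
      ext x; exact hρ trivial⟩
  have hKT : T M (W.H.sub K) := hMW.T_H.sub_of_F K hK1
  have hkill : ∀ φ : W.H →ₗ[A] L, K ≤ LinearMap.ker φ := by
    intro φ
    rcases hs (LinearMap.range (φ ∘ₗ K.subtype)) (hKT.quot (φ ∘ₗ K.subtype).rangeRestrict
      (φ ∘ₗ K.subtype).surjective_rangeRestrict) with hb | ht
    · intro x hx
      exact LinearMap.congr_fun (LinearMap.range_eq_bot.1 hb) ⟨x, hx⟩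
    · refine (hmin (y := K ⊓ LinearMap.ker φ) ⟨hK1.inf (hLF.quoKer φ), fun ρ hρ => hK2 ρ ?_⟩
        inf_le_left).trans inf_le_right
      have := factor_zero (X := W.H.sub K) (φ ∘ₗ K.subtype) (LinearMap.range_eq_top.1 ht)
        (ρ ∘ₗ K.subtype) (fun x hx => hρ ⟨x.2, hx⟩) h0
      intro x hx
      exact LinearMap.congr_fun this ⟨x, hx⟩
  have hYF : ¬ F W Y := fun hF =>
    not_subsingleton Y (sub_of_id (hC Y hY Y hF LinearMap.id))
  obtain ⟨g, hg, ψ, hψ, hgψ⟩ := exists_fix hW hYF K (hC _ hKT) hK2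
  obtain ⟨p1, p0, hp, hq⟩ := exists_chain W ψ
  obtain ⟨m, W', R, e1, e2⟩ := fitting W p1 p0 hp
  have hfix : ∀ j : ℕ, ∀ x, g ((LinearMap.range W.f).mkQ ((p0 ^ j) x)) =
      g ((LinearMap.range W.f).mkQ x) := by
    intro j
    induction j with
    | zero => intro x; rfl
    | succ j ihj =>
      intro x
      rw [pow_succ', Module.End.mul_apply, hq]
      exact (LinearMap.congr_fun hgψ _).trans (ihj x)
  have hlt : finrank k W'.P0 < n := by
    rw [e1, ← hn]
    apply sub_lt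
    intro ht
    apply hg
    ext x
    have hx0 : (p0 ^ (m + 1)) x = 0 := (ht ▸ trivial : x ∈ LinearMap.ker (p0 ^ (m + 1)))
    have := hfix (m + 1) x
    rw [hx0, map_zero, map_zero] at this
    exact this.symm
  have hW'W : EZ W' W := hW.of_le (R.left W)
  have hpos : 0 < pr W' L := by
    by_contra hc
    have hF' : F W' L := (hW'W.T_of_G (hC L hLT)).toF (not_lt.1 hc)
    have hF : F W L := by
      intro a ha
      have h1 := hF' (a ∘ₗ R.i0) (by
        ext x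
        simp only [LinearMap.comp_apply, R.hi]
        exact LinearMap.congr_fun ha _)
      ext x
      obtain ⟨_, ⟨u, rfl⟩, _, ⟨v, rfl⟩, rfl⟩ :=
        Submodule.mem_sup.1 (e2 ▸ Submodule.mem_top (x := x))
      have h2 := hkill ((LinearMap.range W.f).liftQ a (LinearMap.range_le_ker_iff.2 ha))
        (hψ ((LinearMap.range W.f).mkQ ((p0 ^ m) v)))
      rw [← hq] at h2
      rw [map_add, pow_succ', Module.End.mul_apply]
      exact (congrArg₂ (· + ·) (LinearMap.congr_fun h1 u) h2).trans (add_zero _)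
    have := (h.sign1 (W := W) hz hL hL0).1 hd
    have := hF.nonpos
    omega
  exact ih _ hlt W' (hW'W.of_le (R.right W')) (hWM.of_le (R.left M)) (hMW.of_le (R.right M))
    ((h.sign1 hz hL hL0).2 hpos) rfl

end Pool.Agent.Work.MP_ccf6ab_al
end

-- merged part: Pool.Agent.Work.MP_ccf6ab_al.Main
section
set_option autoImplicit false

namespace Pool.Agent.Work.MP_ccf6ab_al

open Module

variable {k : Type} [Field k] {A : Type} [Ring A] [Algebra k A]

theorem zero_of_surj {X X' Y : FM k A} (p : X →ₗ[A] X') (hp : Function.Surjective p)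
    (h0 : ∀ ρ : X →ₗ[A] Y, ρ = 0) (ρ : X' →ₗ[A] Y) : ρ = 0 := by
  ext y
  obtain ⟨x, rfl⟩ := hp y
  exact LinearMap.congr_fun (h0 (ρ ∘ₗ p)) x

theorem Two.baseD' {S1 S2 : FM k A} (h : Two S1 S2) {M W : Cx k A} (hM : EZ M M)
    (hxM : 0 < pr M S1) (hz : pr M S2 < 0) (hW : EZ W W) (hWM : EZ W M)
    (hMW : EZ M W) (hd : 0 < dt S1 S2 W M) {Y : FM k A} (hYn : Nontrivial Y) (hY : T M Y)
    (X : FM k A) (hX : Nontrivial X) (hT : T M X) (hF : F M X) (h0 : ∀ ρ : X →ₗ[A] Y, ρ = 0) :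
    False := by
  induction hn : finrank k X using Nat.strong_induction_on generalizing X with
  | _ n ih =>
  by_cases hs : ∀ N : Submodule A X, T M (X.sub N) → N = ⊥ ∨ N = ⊤
  · exact h.baseD hM hxM hz hX hT hF hs hYn hY h0 W hW hWM hMW hd
  push Not at hs
  obtain ⟨N, hN, hb, ht⟩ := hs
  have h1 := finrank_ses X N
  have h2 : 0 < finrank k N := by
    have := Submodule.nontrivial_iff_ne_bot.2 hb
    exact Module.finrank_pos (R := k) (M := X.sub N)
  have h3 : T M (X.quo N) := hT.quot N.mkQ N.mkQ_surjective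
  have h4 := pr_ses M X N
  have h5 := hN.nonneg
  have h6 := hF.nonpos
  exact ih (finrank k (X.quo N)) (by change finrank k (X ⧸ N) < n; omega) (X.quo N)
    (Submodule.Quotient.nontrivial_iff.2 ht) h3 (h3.toF (by omega))
    (zero_of_surj N.mkQ N.mkQ_surjective h0) rfl

theorem Two.lemD (hA : AllRigid k A) {S1 S2 : FM k A} (h : Two S1 S2) (W M : Cx k A)
    (hW : EZ W W) (hM : EZ M M) (hWM : EZ W M) (hx : 0 < pr W S1) (hz' : pr W S2 ≤ 0)
    (hxM : 0 < pr M S1) (hz : pr M S2 < 0) (hd : 0 < dt S1 S2 W M) (X Y : FM k A)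
    (hX : Nontrivial X) (hYn : Nontrivial Y) (hG : G W X) (hF : F M X) (hY : T M Y)
    (h0 : ∀ ρ : X →ₗ[A] Y, ρ = 0) : False := by
  induction hn : E M W using Nat.strong_induction_on generalizing W M X with
  | _ n ih =>
  by_cases hMW : EZ M W
  · exact h.baseD' hM hxM hz hW hWM hMW hd hYn hY X hX (hMW.T_of_G hG) hF h0
  obtain ⟨N, hN, hNM, hWN, l1, l2, e⟩ := key hA hM hW hWM hMW
  have e1 := e S1
  have e2 := e S2
  have d1 : 0 < dt S1 S2 W N := by
    unfold dt at hd ⊢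
    rw [e1, e2]
    linarith
  have d2 : 0 < dt S1 S2 N M := by
    unfold dt at hd ⊢
    rw [e1, e2]
    linarith
  obtain ⟨s, h1, h2⟩ := G_part N X
  by_cases hs : s = ⊤
  · exact ih _ (hn ▸ l1) N M hN hM hNM (by omega) (by omega) hxM hz d2 X hX
      ((G_tors N).of_top hs h1) hF hY h0 rfl
  · exact ih _ (hn ▸ l2) W N hW hN hWN hx hz' (by omega) (by omega) d1 (X.quo s)
      (Submodule.Quotient.nontrivial_iff.2 hs) (hG.quot s.mkQ s.mkQ_surjective) h2
      (hN.T_of_G (h.lemC hM hNM (by omega) hz d2 hY)) (zero_of_surj s.mkQ s.mkQ_surjective h0) rfl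

def Brick (B : FM k A) : Prop :=
  Nontrivial B ∧ ∀ φ : B →ₗ[A] B, φ = 0 ∨ Function.Bijective φ

theorem Brick.hom_zero {B : FM k A} (hB : Brick B) {t : Submodule A B} (hb : t ≠ ⊥)
    (ρ : B.quo t →ₗ[A] B.sub t) : ρ = 0 := by
  rcases hB.2 (t.subtype ∘ₗ ρ ∘ₗ t.mkQ) with h | h
  · ext x
    exact LinearMap.congr_fun h x
  · obtain ⟨x, hx, hx0⟩ := Submodule.exists_mem_ne_zero_of_ne_bot hb
    refine absurd (h.1 ?_) hx0
    simp [(Submodule.Quotient.mk_eq_zero t).2 hx]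

theorem Brick.iso {B L : FM k A} (hB : Brick B) (a : B →ₗ[A] L) (b : L →ₗ[A] B)
    (ha : Function.Surjective a) (hb : b ≠ 0) : Nonempty (B ≃ₗ[A] L) := by
  rcases hB.2 (b ∘ₗ a) with h | h
  · refine absurd ?_ hb
    ext y
    obtain ⟨x, rfl⟩ := ha y
    exact LinearMap.congr_fun h x
  · exact ⟨LinearEquiv.ofBijective a ⟨Function.Injective.of_comp (f := b) h.1, ha⟩⟩

theorem of_bot {X : FM k A} {t : Submodule A X} (h : t = ⊥) : Function.Injective t.mkQ := by
  rw [← LinearMap.ker_eq_bot, Submodule.ker_mkQ, h]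

theorem Two.cover (hA : AllRigid k A) {S1 S2 : FM k A} (h : Two S1 S2) (W V : Cx k A)
    (hW : EZ W W) (hV : EZ V V) (hWV : EZ W V) (hx : 0 < pr W S1) (hz' : pr W S2 ≤ 0)
    (hx' : 0 ≤ pr V S1) (hz : pr V S2 < 0) (hd : 0 < dt S1 S2 W V) :
    ∃ l : List (FM k A), ∀ B : FM k A, Brick B → G W B → TP V B →
      ∃ L ∈ l, Nonempty (B ≃ₗ[A] L) := by
  induction hn : E V W using Nat.strong_induction_on generalizing W V with
  | _ n ih =>
  by_cases hVW : EZ V W
  · exact ⟨[], fun B hB h1 h2 => absurd (sub_of_id (h2 B (hVW.T_of_G h1) LinearMap.id))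
      (not_subsingleton_iff_nontrivial.2 hB.1)⟩
  obtain ⟨M, hM, hMV, hWM, l1, l2, e⟩ := key hA hV hW hWV hVW
  have e1 := e S1
  have e2 := e S2
  have d1 : 0 < dt S1 S2 W M := by
    unfold dt at hd ⊢
    rw [e1, e2]
    linarith
  have d2 : 0 < dt S1 S2 M V := by
    unfold dt at hd ⊢
    rw [e1, e2]
    linarith
  obtain ⟨la, ha⟩ := ih _ (hn ▸ l1) M V hM hV hMV (by omega) (by omega) hx' hz d2 rfl
  obtain ⟨lb, hb⟩ := ih _ (hn ▸ l2) W M hW hM hWM hx hz' (by omega) (by omega) d1 rfl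
  have hD := h.lemD hA W M hW hM hWM hx hz' (by omega) (by omega) d1
  have hC : ∀ X : FM k A, T M X → G W X := fun X hX => h.lemC hM hWM hx (by omega) d1 hX
  obtain ⟨lc, hc⟩ : ∃ l : List (FM k A), ∀ B : FM k A, Brick B → T M B → F M B →
      ∃ L ∈ l, Nonempty (B ≃ₗ[A] L) := by
    by_cases hex : ∃ L : FM k A, Nontrivial L ∧ T M L ∧ F M L
    · obtain ⟨L, ⟨hL, hLT, hLF⟩, hmin⟩ := exists_minimalFor_of_wellFoundedLT _
        (fun L : FM k A => finrank k L) hex
      refine ⟨[L], fun B hB h1 h2 => ⟨L, List.mem_singleton_self _, ?_⟩⟩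
      obtain ⟨a, ha⟩ : ∃ a : B →ₗ[A] L, a ≠ 0 := by
        by_contra hc
        push Not at hc
        exact hD B L hB.1 hL (hC B h1) h2 hLT hc
      obtain ⟨b, hb⟩ : ∃ a : L →ₗ[A] B, a ≠ 0 := by
        by_contra hc
        push Not at hc
        exact hD L B hL hB.1 (hC L hLT) hLF h1 hc
      refine hB.iso a b (LinearMap.range_eq_top.1 ?_) hb
      by_contra ht
      have h3 := sub_lt ht
      have h4 := hmin (j := L.sub (LinearMap.range a))
        ⟨Submodule.nontrivial_iff_ne_bot.2 (fun h => ha (LinearMap.range_eq_bot.1 h)),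
          h1.quot a.rangeRestrict a.surjective_rangeRestrict,
          hLF.sub (Submodule.subtype _) Subtype.val_injective⟩ h3.le
      exact h3.not_ge h4
    · exact ⟨[], fun B hB h1 h2 => absurd ⟨B, hB.1, h1, h2⟩ hex⟩
  refine ⟨la ++ lb ++ lc, fun B hB h1 h2 => ?_⟩
  obtain ⟨t, t1, t2⟩ := T_part M B
  by_cases tb : t = ⊥
  · obtain ⟨L, hL, i⟩ := hb B hB h1 (t2.sub t.mkQ (of_bot tb))
    exact ⟨L, by simp [hL], i⟩
  have tt : t = ⊤ := by
    by_contra tt
    exact hD (B.quo t) (B.sub t) (Submodule.Quotient.nontrivial_iff.2 tt)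
      (Submodule.nontrivial_iff_ne_bot.2 tb) (h1.quot t.mkQ t.mkQ_surjective) (hM.F_of_TP t2) t1
      (hB.hom_zero tb)
  have hT : T M B := (T_tors M).of_top tt t1
  obtain ⟨s, s1, s2⟩ := G_part M B
  by_cases sb : s = ⊥
  · obtain ⟨L, hL, i⟩ := hc B hB hT (s2.sub s.mkQ (of_bot sb))
    exact ⟨L, by simp [hL], i⟩
  have st : s = ⊤ := by
    by_contra st
    exact hD (B.quo s) (B.sub s) (Submodule.Quotient.nontrivial_iff.2 st)
      (Submodule.nontrivial_iff_ne_bot.2 sb) (h1.quot s.mkQ s.mkQ_surjective) s2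
      (hM.T_of_G s1) (hB.hom_zero sb)
  obtain ⟨L, hL, i⟩ := ha B hB ((G_tors M).of_top st s1) h2
  exact ⟨L, by simp [hL], i⟩

theorem exists_cover {S S' : FM k A} (hS : IsSimpleModule A S) (hS' : IsSimpleModule A S')
    (hne : IsEmpty (S ≃ₗ[A] S')) (hex : ∃ P : FM k A, Projective A P ∧ ∃ a : P →ₗ[A] S, a ≠ 0) :
    ∃ P : FM k A, Projective A P ∧ (∃ a : P →ₗ[A] S, a ≠ 0) ∧ ∀ b : P →ₗ[A] S', b = 0 := by
  obtain ⟨P, ⟨hP, a, ha⟩, hmin⟩ := exists_minimalFor_of_wellFoundedLT _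
    (fun P : FM k A => finrank k P) hex
  refine ⟨P, hP, ⟨a, ha⟩, fun b => ?_⟩
  by_contra hb
  have sa := LinearMap.surjective_of_ne_zero ha
  have sb := LinearMap.surjective_of_ne_zero hb
  have h1 : a ∘ₗ (LinearMap.ker b).subtype ≠ 0 := by
    intro h0
    have hle : LinearMap.ker b ≤ LinearMap.ker a := fun x hx => LinearMap.congr_fun h0 ⟨x, hx⟩
    apply ha
    apply factor_zero b sb a hle
    intro σ
    by_contra hσ
    exact hne.false (LinearEquiv.ofBijective σ (LinearMap.bijective_of_ne_zero hσ)).symm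
  obtain ⟨c, hc⟩ := Module.projective_lifting_property _ a (LinearMap.surjective_of_ne_zero h1)
  let ψ : P →ₗ[A] P := (LinearMap.ker b).subtype ∘ₗ c
  obtain ⟨n, hn⟩ := Filter.eventually_atTop.1
    (LinearMap.eventually_isCompl_ker_pow_range_pow (R := A) (M := P) ψ)
  have h2 := hn (n + 1) (by omega)
  have hfix : ∀ j : ℕ, ∀ x, a ((ψ ^ j) x) = a x := by
    intro j
    induction j with
    | zero => intro x; rfl
    | succ j ihj =>
      intro x
      rw [pow_succ', Module.End.mul_apply]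
      exact (LinearMap.congr_fun hc _).trans (ihj x)
  have h3 : finrank k (LinearMap.range (ψ ^ (n + 1))) < finrank k P := by
    apply sub_lt
    intro ht
    apply hb
    ext x
    obtain ⟨y, rfl⟩ : x ∈ LinearMap.range (ψ ^ (n + 1)) := ht ▸ trivial
    rw [pow_succ', Module.End.mul_apply]
    exact (c _).2
  refine h3.not_ge (hmin (j := P.sub (LinearMap.range (ψ ^ (n + 1))))
    ⟨proj_of_compl h2.symm, a ∘ₗ Submodule.subtype _, fun h0 => ha ?_⟩ h3.le)
  ext x
  rw [← hfix (n + 1) x]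
  exact LinearMap.congr_fun h0 ⟨_, x, rfl⟩

theorem hd_pos {P Z : FM k A} (h : ∃ a : P →ₗ[A] Z, a ≠ 0) : 0 < hd P Z := by
  obtain ⟨a, ha⟩ := h
  have : Nontrivial (P →ₗ[A] Z) := ⟨a, 0, ha⟩
  exact Module.finrank_pos

theorem hd_zero {P Z : FM k A} (h : ∀ a : P →ₗ[A] Z, a = 0) : hd P Z = 0 := by
  have : Subsingleton (P →ₗ[A] Z) := ⟨fun a b => (h a).trans (h b).symm⟩
  exact Module.finrank_zero_of_subsingleton

theorem Two.side (hA : AllRigid k A) [Module.Finite k A] {S1 S2 : FM k A} (h : Two S1 S2)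
    (hne : IsEmpty (S1 ≃ₗ[A] S2)) : ∃ l : List (FM k A), ∀ B : FM k A, Brick B →
      (∀ a : B →ₗ[A] S2, a = 0) → (∀ a : S1 →ₗ[A] B, a = 0) → ∃ L ∈ l, Nonempty (B ≃ₗ[A] L) := by
  have hex : ∀ S : FM k A, IsSimpleModule A S →
      ∃ P : FM k A, Projective A P ∧ ∃ a : P →ₗ[A] S, a ≠ 0 := by
    intro S hS
    have := hS.nontrivial
    obtain ⟨x, hx⟩ := exists_ne (0 : S)
    refine ⟨FM.mk A, inferInstanceAs (Projective A A), LinearMap.toSpanSingleton A S x, fun h0 => hx ?_⟩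
    simpa using LinearMap.congr_fun h0 1
  obtain ⟨P, hP, p1, p2⟩ := exists_cover h.s1 h.s2 hne (hex _ h.s1)
  obtain ⟨Q, hQ, q2, q1⟩ := exists_cover h.s2 h.s1 ⟨fun e => hne.false e.symm⟩ (hex _ h.s2)
  let Z : FM k A := FM.mk PUnit
  have hZ : Projective A Z := inferInstanceAs (Projective A PUnit)
  have z : ∀ S : FM k A, hd Z S = 0 := fun S => hd_zero fun a => by
    ext x; rw [Subsingleton.elim x 0, map_zero]; rfl
  let W : Cx k A := Cx.mk Z P 0
  let V : Cx k A := Cx.mk Q Z 0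
  have w1 := hd_pos p1
  have w2 := hd_zero p2
  have v1 := hd_zero q1
  have v2 := hd_pos q2
  have a1 : pr W S1 = hd P S1 := by simp [pr, W, z]
  have a2 : pr W S2 = 0 := by simp [pr, W, z, w2]
  have a3 : pr V S1 = 0 := by simp [pr, V, z, v1]
  have a4 : pr V S2 = - hd Q S2 := by simp [pr, V, z]
  obtain ⟨l, hl⟩ := h.cover hA W V
    (fun g => ⟨0, 0, by ext x; rw [Subsingleton.elim x 0, map_zero, map_zero]⟩)
    (fun g => ⟨0, 0, by ext x⟩)
    (fun g => ⟨0, 0, by ext x⟩) (by omega) (by omega) (by omega) (by omega)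
    (by unfold dt; rw [a1, a2, a3, a4]; simp; positivity)
  have := h.s1
  have := h.s2
  refine ⟨l, fun B hB b2 b1 => hl B hB ?_ ?_⟩
  · intro Y hY ρ
    by_contra hρ
    have : Nontrivial ((Y.sub (LinearMap.range ρ)) : Type) :=
      Submodule.nontrivial_iff_ne_bot.2 (fun h => hρ (LinearMap.range_eq_bot.1 h))
    obtain ⟨N, hN⟩ := simple_quo (Y.sub (LinearMap.range ρ))
    rcases h.all ((Y.sub (LinearMap.range ρ)).quo N) hN with ⟨⟨e⟩⟩ | ⟨⟨e⟩⟩
    · obtain ⟨a, ha⟩ := p1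
      obtain ⟨c, rfl⟩ := Module.projective_lifting_property (e.toLinearMap ∘ₗ N.mkQ) a
        (e.surjective.comp N.mkQ_surjective)
      have := hY.sub (Y := Y.sub (LinearMap.range ρ)) (Submodule.subtype _) Subtype.val_injective c
        (LinearMap.comp_zero _)
      exact ha (by rw [this, LinearMap.comp_zero])
    · have h1 := zero_of_surj (X' := S2) (e.toLinearMap ∘ₗ N.mkQ ∘ₗ ρ.rangeRestrict)
        (e.surjective.comp (N.mkQ_surjective.comp ρ.surjective_rangeRestrict)) b2 LinearMap.id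
      exact not_subsingleton_iff_nontrivial.2 h.s2.nontrivial (sub_of_id h1)
  · intro Y hY ρ
    by_contra hρ
    have : Nontrivial ((B.sub (LinearMap.range ρ)) : Type) :=
      Submodule.nontrivial_iff_ne_bot.2 (fun h => hρ (LinearMap.range_eq_bot.1 h))
    obtain ⟨N, hN⟩ := simple_sub (B.sub (LinearMap.range ρ))
    have := hN.nontrivial
    obtain ⟨x, hx⟩ := exists_ne (0 : N)
    rcases h.all ((B.sub (LinearMap.range ρ)).sub N) hN with ⟨⟨e⟩⟩ | ⟨⟨e⟩⟩
    · have h1 := LinearMap.congr_fun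
        (b1 ((LinearMap.range ρ).subtype ∘ₗ N.subtype ∘ₗ e.symm.toLinearMap)) (e x)
      apply hx
      simpa using h1
    · obtain ⟨a, ha⟩ := q2
      obtain ⟨c, hc⟩ := (hY.quot (Y := B.sub (LinearMap.range ρ)) ρ.rangeRestrict
        ρ.surjective_rangeRestrict) (N.subtype ∘ₗ e.symm.toLinearMap ∘ₗ a)
      apply ha
      ext y
      have h1 := LinearMap.congr_fun hc y
      simpa [V] using h1

theorem finite_bricks (hA : AllRigid k A) [Module.Finite k A]
    (h2 : ∀ S : Fin 3 → FM k A, (∀ i, IsSimpleModule A (S i)) →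
      ∃ i j, i ≠ j ∧ Nonempty (S i ≃ₗ[A] S j)) :
    ∃ l : List (FM k A), ∀ B : FM k A, Brick B → ∃ L ∈ l, Nonempty (B ≃ₗ[A] L) := by
  have key : ∀ B S : FM k A, Brick B → IsSimpleModule A S → ∀ a : B →ₗ[A] S, a ≠ 0 →
      ∀ b : S →ₗ[A] B, b ≠ 0 → Nonempty (B ≃ₗ[A] S) := fun B S hB hS a ha b hb =>
    hB.iso a b (LinearMap.surjective_of_ne_zero ha) hb
  have hq : ∀ B : FM k A, Brick B → ∃ S : FM k A, IsSimpleModule A S ∧ ∃ a : B →ₗ[A] S, a ≠ 0 := by
    intro B hB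
    have := hB.1
    obtain ⟨N, hN⟩ := simple_quo B
    exact ⟨B.quo N, hN, N.mkQ, fun h =>
      Submodule.Quotient.nontrivial_iff.1 hN.nontrivial (top_of_mkQ h)⟩
  have hs : ∀ B : FM k A, Brick B → ∃ S : FM k A, IsSimpleModule A S ∧ ∃ a : S →ₗ[A] B, a ≠ 0 := by
    intro B hB
    have := hB.1
    obtain ⟨N, hN⟩ := simple_sub B
    have := hN.nontrivial
    obtain ⟨x, hx⟩ := exists_ne (0 : N)
    exact ⟨B.sub N, hN, N.subtype, fun h => hx (Subtype.ext (LinearMap.congr_fun h x))⟩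
  have tr : ∀ {B S S' : FM k A} (e : S ≃ₗ[A] S') (a : B →ₗ[A] S), a ≠ 0 → e.toLinearMap ∘ₗ a ≠ 0 :=
    fun e a ha h => ha (by ext x; simpa using LinearMap.congr_fun h x)
  have tl : ∀ {B S S' : FM k A} (e : S ≃ₗ[A] S') (a : S →ₗ[A] B), a ≠ 0 →
      a ∘ₗ e.symm.toLinearMap ≠ 0 :=
    fun e a ha h => ha (by ext x; simpa using LinearMap.congr_fun h (e x))
  by_cases hex : ∃ S1 S2 : FM k A, IsSimpleModule A S1 ∧ IsSimpleModule A S2 ∧
    IsEmpty (S1 ≃ₗ[A] S2)
  · obtain ⟨S1, S2, s1, s2, hne⟩ := hex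
    have h : Two S1 S2 := ⟨s1, s2, fun S hS => by
      obtain ⟨i, j, hij, ⟨e⟩⟩ := h2 ![S1, S2, S] (fun i => by fin_cases i <;> assumption)
      fin_cases i <;> fin_cases j
      · exact absurd rfl hij
      · exact hne.elim e
      · exact Or.inl ⟨e.symm⟩
      · exact hne.elim e.symm
      · exact absurd rfl hij
      · exact Or.inr ⟨e.symm⟩
      · exact Or.inl ⟨e⟩
      · exact Or.inr ⟨e⟩
      · exact absurd rfl hij⟩
    have h' : Two S2 S1 := ⟨s2, s1, fun S hS => (h.all S hS).symm⟩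
    obtain ⟨la, ha⟩ := h.side hA hne
    obtain ⟨lb, hb⟩ := h'.side hA ⟨fun e => hne.false e.symm⟩
    refine ⟨S1 :: S2 :: (la ++ lb), fun B hB => ?_⟩
    by_cases c1 : Nonempty (B ≃ₗ[A] S1)
    · exact ⟨S1, by simp, c1⟩
    by_cases c2 : Nonempty (B ≃ₗ[A] S2)
    · exact ⟨S2, by simp, c2⟩
    obtain ⟨S, hS, a, a0⟩ := hq B hB
    obtain ⟨S', hS', b, b0⟩ := hs B hB
    rcases h.all S hS with ⟨⟨e⟩⟩ | ⟨⟨e⟩⟩ <;> rcases h.all S' hS' with ⟨⟨e'⟩⟩ | ⟨⟨e'⟩⟩
    · exact absurd (key B S1 hB s1 _ (tr e a a0) _ (tl e' b b0)) c1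
    · obtain ⟨L, hL, i⟩ := ha B hB
        (fun c => by_contra fun hc => c2 (key B S2 hB s2 c hc _ (tl e' b b0)))
        (fun c => by_contra fun hc => c1 (key B S1 hB s1 _ (tr e a a0) c hc))
      exact ⟨L, by simp [hL], i⟩
    · obtain ⟨L, hL, i⟩ := hb B hB
        (fun c => by_contra fun hc => c1 (key B S1 hB s1 c hc _ (tl e' b b0)))
        (fun c => by_contra fun hc => c2 (key B S2 hB s2 _ (tr e a a0) c hc))
      exact ⟨L, by simp [hL], i⟩
    · exact absurd (key B S2 hB s2 _ (tr e a a0) _ (tl e' b b0)) c2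
  · by_cases hex' : ∃ S : FM k A, IsSimpleModule A S
    · obtain ⟨S0, s0⟩ := hex'
      refine ⟨[S0], fun B hB => ⟨S0, by simp, ?_⟩⟩
      have hall : ∀ S : FM k A, IsSimpleModule A S → Nonempty (S ≃ₗ[A] S0) := fun S hS =>
        by_contra fun hc => hex ⟨S, S0, hS, s0, not_nonempty_iff.1 hc⟩
      obtain ⟨S, hS, a, a0⟩ := hq B hB
      obtain ⟨S', hS', b, b0⟩ := hs B hB
      obtain ⟨e⟩ := hall S hS
      obtain ⟨e'⟩ := hall S' hS'
      exact key B S0 hB s0 _ (tr e a a0) _ (tl e' b b0)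
    · exact ⟨[], fun B hB => absurd ((hq B hB).imp fun S h => h.1) hex'⟩

end Pool.Agent.Work.MP_ccf6ab_al
end
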